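import Pool.Agent.H81.LO.BS
import Pool.Agent.H4.NS.Red2

/-!
Route S of helper93 (note 6695), steps (C) and (D), pure group theory: in a finite group `M` without
normal `p`-subgroups let `N` be a normal subgroup with trivial centraliser and `z * z = 1`. If `N`
normalises the set of the elements of odd order inverted by `z`, then `z = 1`.
-/

set_option autoImplicit false

namespace Pool.Agent.H44.RS

open Subgroup

variable {M : Type*} [Group M] [Finite M]

omit [Finite M] in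
/-- a `p`-subgroup of the normal subgroup `N` which is normalised by `N` is trivial, if the whole
group has no normal `p`-subgroup -/
theorem pnorm_bot {p : ℕ} (hp : p.Prime) {N : Subgroup M} (hN : N.Normal)
    (h0 : ∀ A : Subgroup M, A.Normal → IsPGroup p A → A = ⊥) {P : Subgroup M} (hPN : P ≤ N)
    (hP : IsPGroup p P) (hPn : ∀ n ∈ N, ∀ a ∈ P, n * a * n⁻¹ ∈ P) : P = ⊥ := by
  have : Fact p.Prime := ⟨hp⟩
  obtain ⟨T⟩ : Nonempty (Sylow p N) := inferInstance
  have key : ∀ R : Subgroup M, IsPGroup p R → (∀ n ∈ N, ∀ a ∈ R, n * a * n⁻¹ ∈ R) →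
      R.subgroupOf N ≤ (T : Subgroup N) := by
    intro R hR hRn
    have hnor : (R.subgroupOf N).Normal := ⟨fun a ha n => hRn n n.2 a ha⟩
    have hpg : IsPGroup p (R.subgroupOf N) := hR.comap_subtype
    exact sup_eq_right.mp (T.is_maximal' (hpg.to_sup_of_normal_left T.isPGroup') le_sup_right)
  have hcore : P ≤ ((T : Subgroup N).map N.subtype).normalCore := by
    intro a ha g
    have hR := key (P.map (MulAut.conj g).toMonoidHom) (hP.map _) (by
      rintro n hn _ ⟨b, hb, rfl⟩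
      refine ⟨(g⁻¹ * n * g) * b * (g⁻¹ * n * g)⁻¹, hPn _ ?_ b hb, ?_⟩
      · have := hN.conj_mem n hn g⁻¹
        rwa [inv_inv] at this
      · show g * ((g⁻¹ * n * g) * b * (g⁻¹ * n * g)⁻¹) * g⁻¹ = n * (g * b * g⁻¹) * n⁻¹
        group)
    have hgN : g * a * g⁻¹ ∈ N := hN.conj_mem a (hPN ha) g
    exact ⟨⟨g * a * g⁻¹, hgN⟩, hR (show g * a * g⁻¹ ∈ P.map (MulAut.conj g).toMonoidHom from
      ⟨a, ha, rfl⟩), rfl⟩
  have h1 := h0 _ (normalCore_normal _)
    ((T.isPGroup'.map N.subtype).to_le (normalCore_le _))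
  rw [h1] at hcore
  exact le_bot_iff.1 hcore

/-- (C) and (D) -/
theorem rs_grp (hp0 : ∀ p : ℕ, p.Prime → ∀ A : Subgroup M, A.Normal → IsPGroup p A → A = ⊥)
    {N : Subgroup M} (hN : N.Normal) (hcen : ∀ u : M, (∀ n ∈ N, u * n = n * u) → u = 1)
    {z : M} (hz : z * z = 1)
    (hst : ∀ n ∈ N, ∀ c : M, Odd (orderOf c) → z * c * z = c⁻¹ →
      z * (n * c * n⁻¹) * z = (n * c * n⁻¹)⁻¹) : z = 1 := by
  have hzi : z⁻¹ = z := inv_eq_of_mul_eq_one_left hz
  -- the elements `y n`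
  set y : M → M := fun n => z * (n * z * n⁻¹) with hy
  have hyN : ∀ n ∈ N, y n ∈ N := by
    intro n hn
    have h1 := hN.conj_mem n hn z
    have h2 : y n = (z * n * z⁻¹) * n⁻¹ := by
      show z * (n * z * n⁻¹) = (z * n * z⁻¹) * n⁻¹
      rw [hzi]; group
    rw [h2]
    exact N.mul_mem h1 (N.inv_mem hn)
  have hzy : ∀ n, z * y n * z = (y n)⁻¹ := by
    intro n
    show z * (z * (n * z * n⁻¹)) * z = (z * (n * z * n⁻¹))⁻¹
    calc z * (z * (n * z * n⁻¹)) * z = (z * z) * (n * z * n⁻¹) * z := by group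
      _ = n * z * n⁻¹ * z := by rw [hz, one_mul]
      _ = n * z⁻¹ * n⁻¹ * z⁻¹ := by rw [hzi]
      _ = (z * (n * z * n⁻¹))⁻¹ := by group
  -- `y n` commutes with the elements of odd order inverted by `z`
  have hyc : ∀ n ∈ N, ∀ c : M, Odd (orderOf c) → z * c * z = c⁻¹ → y n * c = c * y n := by
    intro n hn c hc hzc
    have h1 := hst n⁻¹ (N.inv_mem hn) c hc hzc
    rw [inv_inv] at h1
    have h2 : (n * z * n⁻¹) * c = c⁻¹ * (n * z * n⁻¹) := by
      calc (n * z * n⁻¹) * c = n * (z * (n⁻¹ * c * n)) * n⁻¹ := by group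
        _ = n * (z * (n⁻¹ * c * n) * (z * z)) * n⁻¹ := by rw [hz, mul_one]
        _ = n * (z * (n⁻¹ * c * n) * z) * z * n⁻¹ := by group
        _ = n * (n⁻¹ * c * n)⁻¹ * z * n⁻¹ := by rw [h1]
        _ = c⁻¹ * (n * z * n⁻¹) := by group
    have h3 : z * c⁻¹ = c * z := by
      calc z * c⁻¹ = z * (z * c * z) := by rw [hzc]
        _ = (z * z) * c * z := by group
        _ = c * z := by rw [hz, one_mul]
    show z * (n * z * n⁻¹) * c = c * (z * (n * z * n⁻¹))
    calc z * (n * z * n⁻¹) * c = z * ((n * z * n⁻¹) * c) := by group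
      _ = (z * c⁻¹) * (n * z * n⁻¹) := by rw [h2]; group
      _ = c * (z * (n * z * n⁻¹)) := by rw [h3]; group
  -- the group `F`
  set F : Subgroup M := closure {w | ∃ n ∈ N, w = y n} with hF
  have hFN : F ≤ N := by
    rw [hF, closure_le]
    rintro _ ⟨n, hn, rfl⟩
    exact hyN n hn
  have hyF : ∀ n ∈ N, y n ∈ F := fun n hn => subset_closure ⟨n, hn, rfl⟩
  have hFn : ∀ m ∈ N, ∀ w ∈ F, m * w * m⁻¹ ∈ F := by
    intro m hm w hw
    rw [hF] at hw
    induction hw using closure_induction with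
    | mem w hw =>
      obtain ⟨n, hn, rfl⟩ := hw
      have h1 : m * y n * m⁻¹ = (y m)⁻¹ * y (m * n) := by
        show m * (z * (n * z * n⁻¹)) * m⁻¹ =
          (z * (m * z * m⁻¹))⁻¹ * (z * ((m * n) * z * (m * n)⁻¹))
        calc m * (z * (n * z * n⁻¹)) * m⁻¹ = m * z * m⁻¹ * (m * n * z * (m * n)⁻¹) := by group
          _ = m * z⁻¹ * m⁻¹ * (m * n * z * (m * n)⁻¹) := by rw [hzi]
          _ = (z * (m * z * m⁻¹))⁻¹ * (z * ((m * n) * z * (m * n)⁻¹)) := by group
      rw [h1]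
      exact F.mul_mem (F.inv_mem (hyF m hm)) (hyF _ (N.mul_mem hm hn))
    | one => simp
    | mul a b _ _ ha hb =>
      have e1 : m * (a * b) * m⁻¹ = (m * a * m⁻¹) * (m * b * m⁻¹) := by group
      rw [e1]; exact F.mul_mem ha hb
    | inv a _ ha =>
      have e1 : m * a⁻¹ * m⁻¹ = (m * a * m⁻¹)⁻¹ := by group
      rw [e1]; exact F.inv_mem ha
  -- the center of `F` is trivial
  have hZ : F ⊓ centralizer (F : Set M) = ⊥ := by
    refine ALoop.abelian_bot N (fun p hp R hR hRp _ hn =>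
      pnorm_bot hp hN (hp0 p hp) hR hRp hn) _ (inf_le_left.trans hFN) ?_ ?_
    · intro a ha b hb
      exact ((mem_centralizer_iff.1 ha.2) b hb.1).symm
    · intro m hm a ha
      refine mem_inf.2 ⟨hFn m hm a ha.1, ?_⟩
      rw [mem_centralizer_iff]
      intro w hw
      have h1 := hFn m⁻¹ (N.inv_mem hm) w hw
      rw [inv_inv] at h1
      have h2 := (mem_centralizer_iff.1 ha.2) _ h1
      calc w * (m * a * m⁻¹) = m * ((m⁻¹ * w * m) * a) * m⁻¹ := by group
        _ = m * (a * (m⁻¹ * w * m)) * m⁻¹ := by rw [h2]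
        _ = m * a * m⁻¹ * w := by group
  -- all `y n` are `2`-elements
  have hpow : ∀ n ∈ N, ∃ k : ℕ, (y n) ^ 2 ^ k = 1 := by
    intro n hn
    have hpos := orderOf_pos (y n)
    obtain ⟨k, m, hm, hkm⟩ := Nat.exists_eq_two_pow_mul_odd hpos.ne'
    refine ⟨k, ?_⟩
    have hord : ((y n) ^ 2 ^ k) ^ m = 1 := by
      rw [← pow_mul, ← hkm, pow_orderOf_eq_one]
    have hodd : Odd (orderOf ((y n) ^ 2 ^ k)) := hm.of_dvd_nat (orderOf_dvd_of_pow_eq_one hord)
    have hinv : z * (y n) ^ 2 ^ k * z = ((y n) ^ 2 ^ k)⁻¹ := by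
      calc z * (y n) ^ 2 ^ k * z = z * (y n) ^ 2 ^ k * z⁻¹ := by rw [hzi]
        _ = (z * y n * z⁻¹) ^ 2 ^ k := (conj_pow).symm
        _ = ((y n) ^ 2 ^ k)⁻¹ := by rw [hzi, hzy, inv_pow]
    have hmem : (y n) ^ 2 ^ k ∈ F ⊓ centralizer (F : Set M) := by
      refine mem_inf.2 ⟨F.pow_mem (hyF n hn) _, ?_⟩
      have h1 : F ≤ centralizer {(y n) ^ 2 ^ k} := by
        rw [hF, closure_le]
        rintro _ ⟨m', hm', rfl⟩
        rw [SetLike.mem_coe, mem_centralizer_singleton_iff]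
        exact hyc m' hm' _ hodd hinv
      rw [mem_centralizer_iff]
      intro w hw
      exact mem_centralizer_singleton_iff.1 (h1 hw)
    rw [hZ, mem_bot] at hmem
    exact hmem
  -- Baer's theorem in the group generated by the conjugates of `z` under `N`
  set W : Subgroup M := closure {w | ∃ n ∈ N, w = n * z * n⁻¹} with hW
  have hzW : ∀ n ∈ N, n * z * n⁻¹ ∈ W := fun n hn => subset_closure ⟨n, hn, rfl⟩
  have hWn : ∀ g ∈ W, ∀ n ∈ N, ∃ n' ∈ N, g * (n * z * n⁻¹) * g⁻¹ = n' * z * n'⁻¹ := by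
    intro g hg
    rw [hW] at hg
    have hbase : ∀ m ∈ N, ∀ n ∈ N, ∃ n' ∈ N,
        (m * z * m⁻¹) * (n * z * n⁻¹) * (m * z * m⁻¹)⁻¹ = n' * z * n'⁻¹ := by
      intro m hm n hn
      refine ⟨m * (z * (m⁻¹ * n) * z⁻¹), N.mul_mem hm
        (hN.conj_mem _ (N.mul_mem (N.inv_mem hm) hn) z), by group⟩
    induction hg using closure_induction with
    | mem g hg =>
      obtain ⟨m, hm, rfl⟩ := hg
      exact hbase m hm
    | one => exact fun n hn => ⟨n, hn, by group⟩
    | mul a b _ _ ha hb =>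
      intro n hn
      obtain ⟨n', hn', e1⟩ := hb n hn
      obtain ⟨n'', hn'', e2⟩ := ha n' hn'
      refine ⟨n'', hn'', ?_⟩
      rw [← e2, ← e1]; group
    | inv a ha' ha =>
      -- finite order
      intro n hn
      have hit : ∀ j : ℕ, ∃ n' ∈ N, a ^ j * (n * z * n⁻¹) * (a ^ j)⁻¹ = n' * z * n'⁻¹ := by
        intro j
        induction j with
        | zero => exact ⟨n, hn, by simp⟩
        | succ j ih =>
          obtain ⟨n', hn', e1⟩ := ih
          obtain ⟨n'', hn'', e2⟩ := ha n' hn'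
          refine ⟨n'', hn'', ?_⟩
          rw [← e2, ← e1, pow_succ']; group
      obtain ⟨n', hn', e1⟩ := hit (orderOf a - 1)
      have h1 : a ^ (orderOf a - 1) = a⁻¹ := by
        apply eq_inv_of_mul_eq_one_left
        rw [← pow_succ, Nat.sub_add_cancel (orderOf_pos a), pow_orderOf_eq_one]
      rw [h1] at e1
      exact ⟨n', hn', e1⟩
  have h2W : IsPGroup 2 W := by
    let C : Set W := {w | ∃ n ∈ N, (w : M) = n * z * n⁻¹}
    have hCn : ∀ g : W, ∀ a ∈ C, g * a * g⁻¹ ∈ C := by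
      rintro g a ⟨n, hn, ha⟩
      obtain ⟨n', hn', e1⟩ := hWn g g.2 n hn
      refine ⟨n', hn', ?_⟩
      rw [← e1, ← ha]
      rfl
    have hCC : ∀ a ∈ C, ∀ b ∈ C, IsPGroup 2 (closure {a, b}) := by
      rintro a ⟨n, hn, ha⟩ b ⟨m, hm, hb⟩
      obtain ⟨j, hj⟩ := hpow (n⁻¹ * m) (N.mul_mem (N.inv_mem hn) hm)
      refine Pool.Agent.H81.LO.dihedral_two (k := j) ?_ ?_ ?_
      · apply Subtype.ext
        show (a : M) * a = 1
        rw [ha]
        calc n * z * n⁻¹ * (n * z * n⁻¹) = n * (z * z) * n⁻¹ := by group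
          _ = 1 := by rw [hz]; group
      · apply Subtype.ext
        show (b : M) * b = 1
        rw [hb]
        calc m * z * m⁻¹ * (m * z * m⁻¹) = m * (z * z) * m⁻¹ := by group
          _ = 1 := by rw [hz]; group
      · apply Subtype.ext
        show ((a : M) * b) ^ 2 ^ j = 1
        have e1 : (a : M) * b = n * y (n⁻¹ * m) * n⁻¹ := by
          rw [ha, hb]
          show n * z * n⁻¹ * (m * z * m⁻¹) =
            n * (z * ((n⁻¹ * m) * z * (n⁻¹ * m)⁻¹)) * n⁻¹
          group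
        rw [e1, conj_pow, hj]
        group
    have h3 := Pool.Agent.H81.LO.baer_two hCn hCC
    have h4 : (closure C).map W.subtype = W := by
      apply le_antisymm
      · rintro _ ⟨w, -, rfl⟩
        exact w.2
      · refine (closure_le _).2 ?_
        rintro _ ⟨n, hn, rfl⟩
        exact ⟨⟨n * z * n⁻¹, hzW n hn⟩, subset_closure ⟨n, hn, rfl⟩, rfl⟩
    have h5 := h3.map W.subtype
    rwa [h4] at h5
  have hzW1 : z ∈ W := by
    have := hzW 1 N.one_mem
    rwa [one_mul, inv_one, mul_one] at this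
  have hFW : F ≤ W := by
    rw [hF, closure_le]
    rintro _ ⟨n, hn, rfl⟩
    exact W.mul_mem hzW1 (hzW n hn)
  have hF0 : F = ⊥ := pnorm_bot Nat.prime_two hN (hp0 2 Nat.prime_two) hFN (h2W.to_le hFW) hFn
  apply hcen
  intro n hn
  have h1 := hyF n hn
  rw [hF0, mem_bot] at h1
  have h2 : z * (n * z * n⁻¹) = 1 := h1
  calc z * n = z * (n * z * n⁻¹) * n * z⁻¹ := by group
    _ = n * z⁻¹ := by rw [h2, one_mul]
    _ = n * z := by rw [hzi]

end Pool.Agent.H44.RS
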