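import Pool.Agent.H44.RS.AB
import Pool.Agent.H44.RS.CD
import Pool.Agent.H86.UN.Eight

/-!
Route S of helper93 (note 6695): `L y * L y = 1` for every involution `y` of a finite simple
automorphic loop of even order which is not of exponent two.
-/

set_option autoImplicit false

namespace ALoop

open Equiv

variable {Q : Type*} {G : Subgroup (Perm Q)} {L : Q → Perm Q} {J : Perm Q} {e : Q}

namespace AL

theorem Iv_map (h : AL G L J e) {g : Perm Q} (hg : g ∈ Inn G e) {w : Q} (hw : Iv J e w) :
    Iv J e (g w) := by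
  have hgJ : g * J = J * g := h.comJ g hg.1 hg.2
  refine ⟨?_, ?_⟩
  · show (J * g) w = g w
    rw [← hgJ]
    show g (J w) = g w
    rw [hw.1]
  · intro h1
    exact hw.2 (g.injective (h1.trans (show g e = e from hg.2).symm))

theorem LL_mem (h : AL G L J e) {w : Q} (hw : Iv J e w) : L w * L w ∈ Inn G e := by
  refine ⟨G.mul_mem (h.memL w) (h.memL w), ?_⟩
  show L w (L w e) = e
  rw [h.Le]
  have h1 := h.LJ w
  rwa [hw.1] at h1

/-- all involutions `y` satisfy `L y * L y = 1` -/
theorem lam_one [Finite Q] (h : AL G L J e) (hcardQ : 2 ∣ Nat.card Q) {y : Q}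
    (hy : Iv J e y) : L y * L y = 1 := by
  classical
  by_contra hne
  -- the group generated by all `L w * L w`
  let S : Set (Inn G e) := {a | ∃ w, Iv J e w ∧ (a : Perm Q) = L w * L w}
  let N : Subgroup (Inn G e) := Subgroup.closure S
  have hSn : ∀ g : Inn G e, ∀ a ∈ S, g * a * g⁻¹ ∈ S := by
    rintro g a ⟨w, hw, ha⟩
    refine ⟨(g : Perm Q) w, h.Iv_map g.2 hw, ?_⟩
    have h1 := h.equi g g.2.1 g.2.2 w
    show (g : Perm Q) * (a : Perm Q) * (g : Perm Q)⁻¹ = L ((g : Perm Q) w) * L ((g : Perm Q) w)
    rw [ha, ← h1]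
    group
  have hN : N.Normal := by
    refine ⟨fun n hn g => ?_⟩
    induction hn using Subgroup.closure_induction with
    | mem a ha => exact Subgroup.subset_closure (hSn g a ha)
    | one => simp
    | mul a b _ _ ha hb =>
      have e1 : g * (a * b) * g⁻¹ = (g * a * g⁻¹) * (g * b * g⁻¹) := by group
      rw [e1]; exact Subgroup.mul_mem _ ha hb
    | inv a _ ha =>
      have e1 : g * a⁻¹ * g⁻¹ = (g * a * g⁻¹)⁻¹ := by group
      rw [e1]; exact Subgroup.inv_mem _ ha
  have hyS : (⟨L y * L y, h.LL_mem hy⟩ : Inn G e) ∈ N := Subgroup.subset_closure ⟨y, hy, rfl⟩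
  have hN0 : N ≠ ⊥ := by
    intro h0
    rw [h0, Subgroup.mem_bot] at hyS
    exact hne (congrArg Subtype.val hyS)
  -- no normal `p`-subgroups
  have hp0 : ∀ p : ℕ, p.Prime → ∀ A : Subgroup (Inn G e), A.Normal → IsPGroup p A → A = ⊥ := by
    intro p hp A hA hAp
    have : Fact p.Prime := ⟨hp⟩
    have hnil : Group.IsNilpotent A := hAp.isNilpotent
    exact h.no_solvable hcardQ A hA inferInstance
  -- the centraliser of `N`
  have hcen : ∀ u : Inn G e, (∀ n ∈ N, u * n = n * u) → u = 1 := by
    intro u hu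
    have hC : (Subgroup.centralizer (N : Set (Inn G e))).Normal := inferInstance
    have h1 := h.commuting_normal' hcardQ (Subgroup.centralizer (N : Set (Inn G e))) N hC hN (by
      intro a ha b hb
      exact ((Subgroup.mem_centralizer_iff.1 ha) b hb).symm)
    rcases h1 with h1 | h1
    · have h2 : u ∈ Subgroup.centralizer (N : Set (Inn G e)) := by
        rw [Subgroup.mem_centralizer_iff]
        intro n hn
        exact (hu n hn).symm
      rw [h1, Subgroup.mem_bot] at h2
      exact h2
    · exact absurd h1 hN0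
  -- the involution `z_y`
  have hzE : D L J y * J ∈ EE L J e := ⟨y, hy.1, hy.2, rfl⟩
  have hzI := h.EE_Inn hzE
  have hzz := h.EE_sq hzE
  have hJJ := h.JJ1
  have hDJ : D L J y * J = J * D L J y := h.Dx_J hy.1
  -- elements inverted by `z_y`
  have hKX : ∀ c : Inn G e, Odd (orderOf c) →
      (⟨D L J y * J, hzI⟩ : Inn G e) * c * ⟨D L J y * J, hzI⟩ = c⁻¹ → KX G L J e y c := by
    intro c hc hzc
    have h1 : (D L J y * J) * (c : Perm Q) * (D L J y * J) = (c : Perm Q)⁻¹ :=
      congrArg Subtype.val hzc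
    have hcJ : (c : Perm Q) * J = J * c := h.comJ c c.2.1 c.2.2
    refine ⟨hy, c.2, ⟨orderOf c, hc, congrArg Subtype.val (pow_orderOf_eq_one c)⟩, ?_⟩
    calc D L J y * (c : Perm Q) * D L J y
        = D L J y * (c : Perm Q) * (J * J) * D L J y := by rw [hJJ]; group
      _ = D L J y * ((c : Perm Q) * J) * (J * D L J y) := by group
      _ = D L J y * (J * (c : Perm Q)) * (D L J y * J) := by rw [hcJ, hDJ]
      _ = (D L J y * J) * (c : Perm Q) * (D L J y * J) := by group
      _ = (c : Perm Q)⁻¹ := h1
  have hKX' : ∀ c : Inn G e, KX G L J e y c →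
      (⟨D L J y * J, hzI⟩ : Inn G e) * c * ⟨D L J y * J, hzI⟩ = c⁻¹ := by
    intro c o
    have hcJ : (c : Perm Q) * J = J * c := h.comJ c c.2.1 c.2.2
    apply Subtype.ext
    show (D L J y * J) * (c : Perm Q) * (D L J y * J) = (c : Perm Q)⁻¹
    calc (D L J y * J) * (c : Perm Q) * (D L J y * J)
        = D L J y * (J * (c : Perm Q)) * (D L J y * J) := by group
      _ = D L J y * ((c : Perm Q) * J) * (J * D L J y) := by rw [hcJ, hDJ]
      _ = D L J y * (c : Perm Q) * (J * J) * D L J y := by group
      _ = D L J y * (c : Perm Q) * D L J y := by rw [hJJ]; group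
      _ = (c : Perm Q)⁻¹ := o.inv
  -- `N` normalises the set of these elements
  have hst : ∀ n ∈ N, (∀ c : Inn G e, KX G L J e y c →
      KX G L J e y ((n * c * n⁻¹ : Inn G e) : Perm Q)) ∧
      (∀ c : Inn G e, KX G L J e y c → KX G L J e y ((n⁻¹ * c * n : Inn G e) : Perm Q)) := by
    intro n hn
    induction hn using Subgroup.closure_induction with
    | mem a ha =>
      obtain ⟨w, hw, ha⟩ := ha
      constructor
      · intro c o
        have h1 := (h.rs_B o hw).1
        have h2 : ((a * c * a⁻¹ : Inn G e) : Perm Q) =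
            L w * L w * (c : Perm Q) * (L w * L w)⁻¹ := by
          show (a : Perm Q) * (c : Perm Q) * (a : Perm Q)⁻¹ = _
          rw [ha]
        rw [h2]
        exact h1
      · intro c o
        have h1 := (h.rs_B o hw).2
        have h2 : ((a⁻¹ * c * a : Inn G e) : Perm Q) =
            (L w * L w)⁻¹ * (c : Perm Q) * (L w * L w) := by
          show (a : Perm Q)⁻¹ * (c : Perm Q) * (a : Perm Q) = _
          rw [ha]
        rw [h2]
        exact h1
    | one =>
      constructor
      · intro c o
        have : (1 * c * 1⁻¹ : Inn G e) = c := by group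
        rw [this]; exact o
      · intro c o
        have : (1⁻¹ * c * 1 : Inn G e) = c := by group
        rw [this]; exact o
    | mul a b _ _ ha hb =>
      constructor
      · intro c o
        have : (a * b * c * (a * b)⁻¹ : Inn G e) = a * (b * c * b⁻¹) * a⁻¹ := by group
        rw [this]
        exact ha.1 _ (hb.1 c o)
      · intro c o
        have : ((a * b)⁻¹ * c * (a * b) : Inn G e) = b⁻¹ * (a⁻¹ * c * a) * b := by group
        rw [this]
        exact hb.2 _ (ha.2 c o)
    | inv a _ ha =>
      constructor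
      · intro c o
        have : (a⁻¹ * c * a⁻¹⁻¹ : Inn G e) = a⁻¹ * c * a := by group
        rw [this]; exact ha.2 c o
      · intro c o
        have : (a⁻¹⁻¹ * c * a⁻¹ : Inn G e) = a * c * a⁻¹ := by group
        rw [this]; exact ha.1 c o
  have hz1 := Pool.Agent.H44.RS.rs_grp hp0 hN hcen
    (z := (⟨D L J y * J, hzI⟩ : Inn G e)) (Subtype.ext hzz) (by
      intro n hn c hc hzc
      exact hKX' _ ((hst n hn).1 c (hKX c hc hzc)))
  exact h.Z_ne (h.zx_mem hy.1 hy.2) (congrArg Subtype.val hz1)

end AL

end ALoop
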