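import Pool.Agent.H44.RS.Lam
import Pool.Agent.H81.LO.LamOne

/-!
A finite simple automorphic loop of even order with `y * y ≠ e` for some `y` is associative.
-/

set_option autoImplicit false

namespace ALoop

open Equiv

variable {Q : Type*} {G : Subgroup (Perm Q)} {L : Q → Perm Q} {J : Perm Q} {e : Q}

/-- a finite simple automorphic loop of even order, not of exponent two, is associative -/
theorem AL.even_assoc [Finite Q] (h : AL G L J e) (hcardQ : 2 ∣ Nat.card Q) : Assoc L :=
  h.assoc_of_lam hcardQ fun _ hJy hye => h.lam_one hcardQ ⟨hJy, hye⟩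

end ALoop
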